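import Mathlib
import Pool.Agent.Helper311.Blow.Main
import Pool.Agent.Helper311.TF.Joh

set_option autoImplicit false

/-!
# Colouring `F`-free graphs: from cliques to all `r`-colourable graphs

`c(F)` is the limsup of the maxima of `χ(G) / (Δ / log Δ)` over the `F`-free graphs `G` of maximum
degree `Δ`.  We show that `c(F)` is at most a constant depending on `F` times `c(K_r)` for every
`r`-colourable graph `F`, `r ≥ 3`.  So the Alon-Krivelevich-Sudakov conjecture for `K_r` implies the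
conjecture for all `r`-colourable graphs.  Moreover `c(K_3) ≤ 4` is proved by a counting argument, so
`c(F)` is finite, with an explicit bound, for every `3`-colourable graph `F`.

Proof.  Let `G` be `F`-free of maximum degree `D`.  A supersaturation argument shows that every set
`Y` of vertices contains a vertex which lies in at most `D ^ (r - 1 - δ)` copies of `K_r` in `Y`; so
the vertices can be ordered such that every vertex is the first vertex of few copies of `K_r`.  Take
`M` random partitions of the vertices into `D ^ (1 - δ')` classes.  By the local lemma one can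
achieve that all degrees inside all classes are at most `2 D ^ δ'` and that every vertex is, in at
least one of the `M` partitions, not the first vertex of a `K_r` inside its class.  Distributing
the vertices accordingly gives `M D ^ (1 - δ')` classes without `K_r` and of degree
at most `2 D ^ δ'`.
-/

namespace Pool.Agent.Results.MP_349e33_co.BlowUps

open Filter Finset Pool.Agent.Helper311.Glue Pool.Agent.Helper311.Blow Classical
open scoped ENNReal

/-- `c(F, Δ)`: the supremum of `χ(G) / (Δ / log Δ)` over all finite `F`-free graphs `G` of maximum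
degree `Δ` (it is `0` if there are none). -/
noncomputable def cAt {W : Type} (F : SimpleGraph W) (Δ : ℕ) : ℝ≥0∞ :=
  ⨆ (V : Type) (_ : Fintype V) (G : SimpleGraph V) (_ : F.Free G) (_ : G.maxDegree = Δ),
    ENNReal.ofReal ((G.chromaticNumber.toNat : ℝ) / ((Δ : ℝ) / Real.log (Δ : ℝ)))

/-- `c(F) = limsup c(F, Δ) ∈ [0, ∞]` as `Δ → ∞`. -/
noncomputable def c {W : Type} (F : SimpleGraph W) : ℝ≥0∞ := limsup (cAt F) atTop

theorem upTo_of_c_le {W : Type} (F : SimpleGraph W) (a : ℝ) (ha : 0 ≤ a)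
    (h : c F ≤ ENNReal.ofReal a) : UpTo F a := by
  intro ε hε
  have h1 : c F < ENNReal.ofReal (a + ε) :=
    lt_of_le_of_lt h ((ENNReal.ofReal_lt_ofReal_iff (by linarith)).2 (by linarith))
  have h2 : ∀ᶠ Δ in atTop, cAt F Δ < ENNReal.ofReal (a + ε) := eventually_lt_of_limsup_lt h1
  obtain ⟨Δ₀, hΔ₀⟩ := eventually_atTop.1 h2
  refine ⟨max Δ₀ 2, ?_⟩
  intro Δ hΔ V instV G inst hfree hmax
  have hinst : inst = fun a b => Classical.propDecidable (G.Adj a b) := Subsingleton.elim _ _
  subst hinst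
  have h3 := hΔ₀ Δ ((le_max_left _ _).trans hΔ)
  have hΔ2 : (1 : ℝ) < Δ := by
    have : 2 ≤ Δ := (le_max_right _ _).trans hΔ
    exact_mod_cast (show 1 < Δ by omega)
  have hpos : 0 < (Δ : ℝ) / Real.log Δ := div_pos (by linarith) (Real.log_pos hΔ2)
  refine ⟨G.chromaticNumber.toNat, SimpleGraph.colorable_chromaticNumber_of_fintype G, ?_⟩
  have h4 : ENNReal.ofReal ((G.chromaticNumber.toNat : ℝ) / ((Δ : ℝ) / Real.log (Δ : ℝ))) ≤
      cAt F Δ := by
    unfold cAt
    refine le_iSup_of_le V ?_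
    refine le_iSup_of_le instV ?_
    refine le_iSup_of_le G ?_
    refine le_iSup_of_le hfree ?_
    exact le_iSup_of_le hmax (le_refl _)
  have h5 := lt_of_le_of_lt h4 h3
  rw [ENNReal.ofReal_lt_ofReal_iff (by linarith), div_lt_iff₀ hpos] at h5
  exact h5.le

theorem c_le_of_upTo {W : Type} (F : SimpleGraph W) (a : ℝ) (ha : 0 ≤ a)
    (h : UpTo F a) : c F ≤ ENNReal.ofReal a := by
  refine ENNReal.le_of_forall_pos_le_add ?_
  intro ε hε _
  have hε' : (0 : ℝ) < ε := by exact_mod_cast hε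
  obtain ⟨Δ₀, hΔ₀⟩ := h ε hε'
  have h1 : ENNReal.ofReal a + (ε : ℝ≥0∞) = ENNReal.ofReal (a + ε) := by
    rw [ENNReal.ofReal_add ha hε'.le, ENNReal.ofReal_coe_nnreal]
  rw [h1]
  refine limsup_le_of_le (by isBoundedDefault) ?_
  filter_upwards [eventually_ge_atTop (max Δ₀ 2)] with Δ hΔ
  have hΔ2 : (1 : ℝ) < Δ := by
    have : 2 ≤ Δ := (le_max_right _ _).trans hΔ
    exact_mod_cast (show 1 < Δ by omega)
  have hpos : 0 < (Δ : ℝ) / Real.log Δ := div_pos (by linarith) (Real.log_pos hΔ2)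
  unfold cAt
  refine iSup_le fun V => iSup_le fun _ => iSup_le fun G => iSup_le fun hfree =>
    iSup_le fun hmax => ?_
  obtain ⟨n, hn, hn2⟩ := hΔ₀ Δ ((le_max_left _ _).trans hΔ) V G hfree hmax
  apply ENNReal.ofReal_le_ofReal
  rw [div_le_iff₀ hpos]
  refine le_trans ?_ hn2
  exact_mod_cast ENat.toNat_le_of_le_natCast hn.chromaticNumber_le

/-- **From cliques to `r`-colourable graphs.** For every `r ≥ 3` and every `r`-colourable graph `F`
with `n` vertices, `c(F) ≤ 128 (r - 1) (n + 1) ^ (2 (r - 1)) * c(K_r)`. In particular `c(F)` is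
finite if `c(K_r)` is finite. -/
theorem general {W : Type} [Fintype W] (F : SimpleGraph W) (r : ℕ) (hr : 3 ≤ r)
    (hF : F.Colorable r) :
    c F ≤ (128 * (r - 1 : ℕ) * (Fintype.card W + 1) ^ (2 * (r - 1)) : ℕ) *
        c (⊤ : SimpleGraph (Fin r)) ∧
      (c (⊤ : SimpleGraph (Fin r)) < ∞ → c F < ∞) := by
  obtain ⟨k, rfl⟩ : ∃ k, r = k + 1 := ⟨r - 1, by omega⟩
  rw [Nat.add_sub_cancel]
  have h1 : c F ≤ (128 * k * (Fintype.card W + 1) ^ (2 * k) : ℕ) *
      c (⊤ : SimpleGraph (Fin (k + 1))) := by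
    have hpos : (128 * k * (Fintype.card W + 1) ^ (2 * k) : ℕ) ≠ 0 := by
      have : 0 < 128 * k * (Fintype.card W + 1) ^ (2 * k) := by
        have : 0 < k := by omega
        positivity
      omega
    by_cases h : c (⊤ : SimpleGraph (Fin (k + 1))) = ∞
    · rw [h, ENNReal.mul_top (by exact_mod_cast hpos)]
      exact le_top
    · have h2 := blowup F k (by omega) hF (c (⊤ : SimpleGraph (Fin (k + 1)))).toReal
        ENNReal.toReal_nonneg
        (upTo_of_c_le _ _ ENNReal.toReal_nonneg (by rw [ENNReal.ofReal_toReal h]))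
      have h3 := c_le_of_upTo F _ (by positivity) h2
      rw [ENNReal.ofReal_mul (by positivity), ENNReal.ofReal_toReal h] at h3
      have h4 : ENNReal.ofReal (128 * k * ((Fintype.card W : ℝ) + 1) ^ (2 * k)) =
          ((128 * k * (Fintype.card W + 1) ^ (2 * k) : ℕ) : ℝ≥0∞) := by
        rw [← ENNReal.ofReal_natCast]; push_cast; rfl
      rwa [h4] at h3
  exact ⟨h1, fun h => lt_of_le_of_lt h1 (ENNReal.mul_lt_top (ENNReal.natCast_lt_top _) h)⟩

/-- **From cliques to `r`-colourable graphs.** (1) For every `r ≥ 3` and every `r`-colourable graph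
`F` with `n` vertices, `c(F) ≤ 128 (r - 1) (n + 1) ^ (2 (r - 1)) * c(K_r)`; in particular `c(F)` is
finite if `c(K_r)` is finite. (2) `c(F) ≤ 1024 (n + 1) ^ 4` for every `3`-colourable graph `F` with
`n` vertices. -/
theorem result {W : Type} [Fintype W] (F : SimpleGraph W) :
    (∀ r : ℕ, 3 ≤ r → F.Colorable r →
      c F ≤ (128 * (r - 1 : ℕ) * (Fintype.card W + 1) ^ (2 * (r - 1)) : ℕ) *
          c (⊤ : SimpleGraph (Fin r)) ∧
        (c (⊤ : SimpleGraph (Fin r)) < ∞ → c F < ∞)) ∧
    (F.Colorable 3 → c F ≤ (1024 * (Fintype.card W + 1) ^ 4 : ℕ)) := by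
  refine ⟨fun r hr hF => general F r hr hF, fun hF => ?_⟩
  have h1 := (general F 3 (le_refl _) hF).1
  have h2 : c (⊤ : SimpleGraph (Fin 3)) ≤ ((4 : ℕ) : ℝ≥0∞) := by
    have h3 := c_le_of_upTo (⊤ : SimpleGraph (Fin 3)) 4 (by norm_num) H311TF.upTo_triangle
    have h4 : ENNReal.ofReal (4 : ℝ) = ((4 : ℕ) : ℝ≥0∞) := by
      rw [← ENNReal.ofReal_natCast]
      norm_num
    rwa [h4] at h3
  refine h1.trans ?_
  have h5 : (128 * (3 - 1) * (Fintype.card W + 1) ^ (2 * (3 - 1)) : ℕ) * 4 =
      1024 * (Fintype.card W + 1) ^ 4 := by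
    norm_num
    ring
  calc ((128 * (3 - 1) * (Fintype.card W + 1) ^ (2 * (3 - 1)) : ℕ) : ℝ≥0∞) *
        c (⊤ : SimpleGraph (Fin 3)) ≤
      ((128 * (3 - 1) * (Fintype.card W + 1) ^ (2 * (3 - 1)) : ℕ) : ℝ≥0∞) * ((4 : ℕ) : ℝ≥0∞) :=
        mul_le_mul_right h2 _
    _ = ((1024 * (Fintype.card W + 1) ^ 4 : ℕ) : ℝ≥0∞) := by
        rw [← Nat.cast_mul, h5]

end Pool.Agent.Results.MP_349e33_co.BlowUps
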