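import Mathlib
import Pool.Agent.Helper311.Glue.Main

set_option autoImplicit false

/-!
# The constants `c(F)` and gluing at one vertex

`c(F)` is the limsup of the maxima of `χ(G) / (Δ / log Δ)` over the `F`-free graphs `G` of maximum
degree `Δ`.  We show that `c` is subadditive under gluing graphs at one vertex, and that no loss
occurs when pieces of connected vertex-transitive graphs (for instance cliques) are glued in a
tree-like way: `c(F) ≤ c(K_r)` for every `F` all of whose blocks have at most `r` vertices.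

Idea.  In an `F`-free graph every vertex outside a harmless set has, for one of the pieces `H i`, a
bounded set of vertices that meets all copies of `H i` through this vertex (among the vertices not
yet eliminated).  A random partition into many parts (local lemma) in which the degrees drop by the
right factor separates almost all vertices from their hitting sets, so the parts are `H i`-free;
the vertices that are not separated induce small degrees and can be coloured wastefully.
-/

namespace Pool.Agent.Results.MP_349e33_co.Gluing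

open Filter Finset Pool.Agent.Helper311.Glue Classical
open scoped ENNReal

section Definitions

variable {W : Type}

/-- `c(F, Δ)`: the supremum of `χ(G) / (Δ / log Δ)` over all finite `F`-free graphs `G` of maximum
degree `Δ` (it is `0` if there are none). -/
noncomputable def cAt (F : SimpleGraph W) (Δ : ℕ) : ℝ≥0∞ :=
  ⨆ (V : Type) (_ : Fintype V) (G : SimpleGraph V) (_ : F.Free G) (_ : G.maxDegree = Δ),
    ENNReal.ofReal ((G.chromaticNumber.toNat : ℝ) / ((Δ : ℝ) / Real.log (Δ : ℝ)))

/-- `c(F) = limsup c(F, Δ) ∈ [0, ∞]` as `Δ → ∞`. -/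
noncomputable def c (F : SimpleGraph W) : ℝ≥0∞ := limsup (cAt F) atTop

/-- `Cactus F H C S`: the vertex set `S` is obtained from the core `C` by successively adding sets
`B` of vertices (the pieces) such that `F[B]` is isomorphic to a subgraph of some `H i`, the set `B`
meets the union of the core and of the earlier pieces in at most one vertex, and all edges of `F`
between `B` and this union lie inside `B`. -/
inductive Cactus (F : SimpleGraph W) {ι : Type} {U : ι → Type} (H : ∀ i, SimpleGraph (U i))
    (C : Finset W) : Finset W → Prop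
  | core : Cactus F H C C
  | glue (S B : Finset W) (i : ι) : Cactus F H C S → (S ∩ B).card ≤ 1 →
      (∀ x ∈ S \ B, ∀ y ∈ B \ S, ¬ F.Adj x y) →
      (F.induce (B : Set W)).IsContained (H i) → Cactus F H C (S ∪ B)

/-- `Rooted F H b C S`: the vertex set `S` is obtained from the core `C` by successively adding sets
`B` of vertices (the pieces) such that there is an embedding `φ` of `F[B]` into some `H i`; the set
`B` meets the union of the core and of the earlier pieces in at most one vertex, this vertex (if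
there is one) lies in the core and is mapped by `φ` to the root `b i`, and all edges of `F` between
`B` and this union lie inside `B`. -/
inductive Rooted (F : SimpleGraph W) {ι : Type} {U : ι → Type} (H : ∀ i, SimpleGraph (U i))
    (b : ∀ i, U i) (C : Finset W) : Finset W → Prop
  | core : Rooted F H b C C
  | glue (S B : Finset W) (i : ι) : Rooted F H b C S → (S ∩ B).card ≤ 1 →
      (∀ x ∈ S \ B, ∀ y ∈ B \ S, ¬ F.Adj x y) →
      (∃ φ : (F.induce (B : Set W)).Copy (H i),
        ∀ x (hx : x ∈ B), x ∈ S → x ∈ C ∧ φ ⟨x, hx⟩ = b i) → Rooted F H b C (S ∪ B)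

/-- `SmallBlocks F r S`: the vertex set `S` is obtained from the empty set by successively adding
sets `B` of at most `r` vertices, each meeting the union of the earlier ones in at most one vertex,
such that all edges of `F` between `B` and this union lie inside `B`.  For `S` the set of all
vertices this says that every block of `F` has at most `r` vertices. -/
inductive SmallBlocks (F : SimpleGraph W) (r : ℕ) : Finset W → Prop
  | empty : SmallBlocks F r ∅
  | glue (S B : Finset W) : SmallBlocks F r S → (S ∩ B).card ≤ 1 → B.card ≤ r →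
      (∀ x ∈ S \ B, ∀ y ∈ B \ S, ¬ F.Adj x y) → SmallBlocks F r (S ∪ B)

/-- `Pieces F S a`: the vertex set `S` is obtained from the empty set by successively adding sets
`B` of vertices such that `F[B]` is connected, `B` meets the union of the earlier sets in at most
one vertex, and all edges of `F` between `B` and this union lie inside `B`; and `a` is the sum of
the numbers `c(F[B])`.  For instance the sets `B` may be the blocks of `F`. -/
inductive Pieces (F : SimpleGraph W) : Finset W → ℝ≥0∞ → Prop
  | empty : Pieces F ∅ 0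
  | glue (S B : Finset W) (a : ℝ≥0∞) : Pieces F S a → (S ∩ B).card ≤ 1 →
      (∀ x ∈ S \ B, ∀ y ∈ B \ S, ¬ F.Adj x y) → (F.induce (B : Set W)).Connected →
      Pieces F (S ∪ B) (a + c (F.induce (B : Set W)))

end Definitions

theorem upTo_of_c_le {W : Type} (F : SimpleGraph W) (a : ℝ) (ha : 0 ≤ a)
    (h : c F ≤ ENNReal.ofReal a) : UpTo F a := by
  intro ε hε
  have h1 : c F < ENNReal.ofReal (a + ε) :=
    lt_of_le_of_lt h ((ENNReal.ofReal_lt_ofReal_iff (by linarith)).2 (by linarith))
  have h2 : ∀ᶠ Δ in atTop, cAt F Δ < ENNReal.ofReal (a + ε) := eventually_lt_of_limsup_lt h1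
  obtain ⟨Δ₀, hΔ₀⟩ := eventually_atTop.1 h2
  refine ⟨max Δ₀ 2, ?_⟩
  intro Δ hΔ V instV G inst hfree hmax
  have hinst : inst = fun a b => Classical.propDecidable (G.Adj a b) := Subsingleton.elim _ _
  subst hinst
  have h3 := hΔ₀ Δ ((le_max_left _ _).trans hΔ)
  have hΔ2 : (1 : ℝ) < Δ := by
    have : 2 ≤ Δ := (le_max_right _ _).trans hΔ
    exact_mod_cast (show 1 < Δ by omega)
  have hpos : 0 < (Δ : ℝ) / Real.log Δ := div_pos (by linarith) (Real.log_pos hΔ2)
  refine ⟨G.chromaticNumber.toNat, SimpleGraph.colorable_chromaticNumber_of_fintype G, ?_⟩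
  have h4 : ENNReal.ofReal ((G.chromaticNumber.toNat : ℝ) / ((Δ : ℝ) / Real.log (Δ : ℝ))) ≤
      cAt F Δ := by
    unfold cAt
    refine le_iSup_of_le V ?_
    refine le_iSup_of_le instV ?_
    refine le_iSup_of_le G ?_
    refine le_iSup_of_le hfree ?_
    exact le_iSup_of_le hmax (le_refl _)
  have h5 := lt_of_le_of_lt h4 h3
  rw [ENNReal.ofReal_lt_ofReal_iff (by linarith), div_lt_iff₀ hpos] at h5
  exact h5.le

theorem c_le_of_upTo {W : Type} (F : SimpleGraph W) (a : ℝ) (ha : 0 ≤ a)
    (h : UpTo F a) : c F ≤ ENNReal.ofReal a := by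
  refine ENNReal.le_of_forall_pos_le_add ?_
  intro ε hε _
  have hε' : (0 : ℝ) < ε := by exact_mod_cast hε
  obtain ⟨Δ₀, hΔ₀⟩ := h ε hε'
  have h1 : ENNReal.ofReal a + (ε : ℝ≥0∞) = ENNReal.ofReal (a + ε) := by
    rw [ENNReal.ofReal_add ha hε'.le, ENNReal.ofReal_coe_nnreal]
  rw [h1]
  refine limsup_le_of_le (by isBoundedDefault) ?_
  filter_upwards [eventually_ge_atTop (max Δ₀ 2)] with Δ hΔ
  have hΔ2 : (1 : ℝ) < Δ := by
    have : 2 ≤ Δ := (le_max_right _ _).trans hΔ
    exact_mod_cast (show 1 < Δ by omega)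
  have hpos : 0 < (Δ : ℝ) / Real.log Δ := div_pos (by linarith) (Real.log_pos hΔ2)
  unfold cAt
  refine iSup_le fun V => iSup_le fun _ => iSup_le fun G => iSup_le fun hfree =>
    iSup_le fun hmax => ?_
  obtain ⟨n, hn, hn2⟩ := hΔ₀ Δ ((le_max_left _ _).trans hΔ) V G hfree hmax
  apply ENNReal.ofReal_le_ofReal
  rw [div_le_iff₀ hpos]
  refine le_trans ?_ hn2
  exact_mod_cast ENat.toNat_le_of_le_natCast hn.chromaticNumber_le

theorem built_of_cactus {W : Type} (F : SimpleGraph W) {ι : Type} {U : ι → Type}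
    (H : ∀ i, SimpleGraph (U i)) (C S : Finset W) (h : Cactus F H C S) : Built F H C S := by
  induction h with
  | core => exact Built.core
  | glue S B i _ h1 h2 h3 ih =>
    exact Built.glue S B i ih h1 h2 h3

theorem attached_of_rooted {W : Type} (F : SimpleGraph W) {ι : Type}
    {U : ι → Type} (H : ∀ i, SimpleGraph (U i)) (b : ∀ i, U i) (C S : Finset W)
    (h : Rooted F H b C S) : Attached F H b C S := by
  induction h with
  | core => exact Attached.core
  | glue S B i _ h1 h2 h3 ih =>
    obtain ⟨φ, hφ⟩ := h3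
    exact Attached.glue S B i ih h1 h2 φ hφ

theorem c_le_sum {W ι : Type} [Fintype ι] {U : ι → Type} (F : SimpleGraph W)
    (H : ∀ i, SimpleGraph (U i)) {W₀ : Type} (F₀ : SimpleGraph W₀)
    (h : ∀ (a : ι → ℝ) (a₀ : ℝ), (∀ i, 0 ≤ a i) → 0 ≤ a₀ → (∀ i, UpTo (H i) (a i)) →
      UpTo F₀ a₀ → UpTo F (a₀ + ∑ i, a i)) :
    c F ≤ c F₀ + ∑ i, c (H i) := by
  by_cases h0 : c F₀ = ∞
  · rw [h0, top_add]; exact le_top
  by_cases h1 : ∃ i, c (H i) = ∞
  · obtain ⟨i, hi⟩ := h1
    have : ∑ i, c (H i) = ∞ := ENNReal.sum_eq_top.2 ⟨i, Finset.mem_univ i, hi⟩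
    rw [this, add_top]; exact le_top
  push Not at h1
  have h2 := h (fun i => (c (H i)).toReal) (c F₀).toReal (fun i => ENNReal.toReal_nonneg)
    ENNReal.toReal_nonneg
    (fun i => upTo_of_c_le _ _ ENNReal.toReal_nonneg (by rw [ENNReal.ofReal_toReal (h1 i)]))
    (upTo_of_c_le _ _ ENNReal.toReal_nonneg (by rw [ENNReal.ofReal_toReal h0]))
  have h3 : 0 ≤ ∑ i, (c (H i)).toReal := Finset.sum_nonneg (fun i _ => ENNReal.toReal_nonneg)
  have h4 := c_le_of_upTo F _ (add_nonneg ENNReal.toReal_nonneg h3) h2
  rw [ENNReal.ofReal_add ENNReal.toReal_nonneg h3, ENNReal.ofReal_toReal h0,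
    ENNReal.ofReal_sum_of_nonneg (fun i _ => ENNReal.toReal_nonneg)] at h4
  simpa only [ENNReal.ofReal_toReal (h1 _)] using h4

theorem c_mono {W W' : Type} (F : SimpleGraph W) (F' : SimpleGraph W') (h : F.IsContained F') :
    c F ≤ c F' := by
  refine limsup_le_limsup (Eventually.of_forall fun Δ => ?_) (by isBoundedDefault)
    (by isBoundedDefault)
  unfold cAt
  refine iSup_le fun V => iSup_le fun _ => iSup_le fun G => iSup_le fun hfree =>
    iSup_le fun hmax => ?_
  exact le_iSup_of_le V (le_iSup_of_le _ (le_iSup_of_le G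
    (le_iSup_of_le (fun hc => hfree (h.trans hc)) (le_iSup_of_le hmax le_rfl))))

theorem c_empty {W : Type} (F : SimpleGraph W) : c (F.induce ((∅ : Finset W) : Set W)) = 0 := by
  have h : ∀ Δ, cAt (F.induce ((∅ : Finset W) : Set W)) Δ = 0 := by
    intro Δ
    unfold cAt
    refine le_antisymm ?_ bot_le
    refine iSup_le fun V => iSup_le fun _ => iSup_le fun G => iSup_le fun hfree =>
      iSup_le fun hmax => ?_
    exfalso
    have : IsEmpty ((∅ : Finset W) : Set W) := by simp
    exact hfree ⟨⟨⟨fun x => (this.false x).elim, fun {a _} _ => (this.false a).elim⟩,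
      fun x => (this.false x).elim⟩⟩
  unfold c
  have h2 : cAt (F.induce ((∅ : Finset W) : Set W)) = fun _ => 0 := funext h
  rw [h2]
  simp

/-- Pieces from connected vertex-transitive graphs, glued in a tree-like way on a core. -/
theorem cactus_bound {W ι : Type} [Fintype W] [Fintype ι] [Nonempty ι]
    (F : SimpleGraph W) {U : ι → Type} [∀ i, Fintype (U i)] (H : ∀ i, SimpleGraph (U i))
    (hconn : ∀ i, (H i).Connected)
    (htr : ∀ i (a b : U i), ∃ α : H i ≃g H i, α a = b) (hU : ∀ i, 1 < Fintype.card (U i))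
    (C : Finset W) (hF : Cactus F H C univ) :
    c F ≤ c (F.induce (C : Set W)) + ∑ i, c (H i) :=
  c_le_sum F H _ (fun a a₀ ha ha₀ hH hF₀ => cactus F H hconn htr hU C
    (built_of_cactus F H C univ hF) a ha hH a₀ ha₀ hF₀)

/-- Copies of connected rooted graphs attached at vertices of a core. -/
theorem rooted_bound {W ι : Type} [Fintype W] [Fintype ι] [Nonempty ι]
    (F : SimpleGraph W) {U : ι → Type} [∀ i, Fintype (U i)] (H : ∀ i, SimpleGraph (U i))
    (hconn : ∀ i, (H i).Connected) (b : ∀ i, U i) (C : Finset W) (hF : Rooted F H b C univ) :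
    c F ≤ c (F.induce (C : Set W)) + ∑ i, c (H i) :=
  c_le_sum F H _ (fun a a₀ ha ha₀ hH hF₀ => rooted F H hconn b C
    (attached_of_rooted F H b C univ hF) a ha hH a₀ ha₀ hF₀)

/-- Gluing two graphs at one vertex. -/
theorem glue_bound {W : Type} [Fintype W] (F : SimpleGraph W) (A B : Finset W)
    (hAB : A ∪ B = univ) (h1 : (A ∩ B).card ≤ 1) (hno : ∀ x ∈ A \ B, ∀ y ∈ B \ A, ¬ F.Adj x y)
    (hB : (F.induce (B : Set W)).Connected) :
    c F ≤ c (F.induce (A : Set W)) + c (F.induce (B : Set W)) := by
  -- the root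
  obtain ⟨z, hz⟩ : ∃ z : (B : Set W), ∀ x (hx : x ∈ B), x ∈ A → (⟨x, hx⟩ : (B : Set W)) = z := by
    by_cases h : ∃ x, x ∈ A ∩ B
    · obtain ⟨x, hx⟩ := h
      refine ⟨⟨x, (Finset.mem_inter.1 hx).2⟩, ?_⟩
      intro y hyB hyA
      apply Subtype.ext
      exact Finset.card_le_one.1 h1 y (Finset.mem_inter.2 ⟨hyA, hyB⟩) x hx
    · obtain ⟨z⟩ := hB.nonempty
      exact ⟨z, fun x hxB hxA => absurd ⟨x, Finset.mem_inter.2 ⟨hxA, hxB⟩⟩ h⟩
  have hR : Rooted F (fun _ : Unit => F.induce (B : Set W)) (fun _ => z) A univ := by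
    rw [← hAB]
    exact Rooted.glue A B () Rooted.core h1 hno
      ⟨SimpleGraph.Copy.id _, fun x hxB hxA => ⟨hxA, hz x hxB hxA⟩⟩
  have := rooted_bound F (fun _ : Unit => F.induce (B : Set W)) (fun _ => hB) (fun _ => z) A hR
  simpa using this

theorem sub_iso {W : Type} (F : SimpleGraph W) (S A : Finset W) (h : A ⊆ S) :
    Nonempty (((F.induce (S : Set W)).induce
      (((univ : Finset (S : Set W)).filter (fun x => x.1 ∈ A) : Finset (S : Set W)) :
        Set (S : Set W))) ≃g F.induce (A : Set W)) := by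
  refine ⟨⟨⟨fun x => ⟨x.1.1, ?_⟩, fun y => ⟨⟨y.1, h y.2⟩, ?_⟩, ?_, ?_⟩, ?_⟩⟩
  · have := x.2
    simpa using this
  · have hy : (y : W) ∈ A := y.2
    simp [hy]
  · intro x; rfl
  · intro y; rfl
  · intro a b; rfl

/-- Gluing at one vertex inside a larger graph. -/
theorem glue_sub {W : Type} [Fintype W] (F : SimpleGraph W) (A B : Finset W)
    (h1 : (A ∩ B).card ≤ 1) (hno : ∀ x ∈ A \ B, ∀ y ∈ B \ A, ¬ F.Adj x y)
    (hB : (F.induce (B : Set W)).Connected) :
    c (F.induce ((A ∪ B : Finset W) : Set W)) ≤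
      c (F.induce (A : Set W)) + c (F.induce (B : Set W)) := by
  obtain ⟨eA⟩ := sub_iso F (A ∪ B) A Finset.subset_union_left
  obtain ⟨eB⟩ := sub_iso F (A ∪ B) B Finset.subset_union_right
  have key : ∀ (X : Type) (_ : Fintype X) (F' : SimpleGraph X) (A' B' : Finset X)
      (hA : ∀ x, x ∈ A' ∨ x ∈ B') (h1 : ∀ x ∈ A', x ∈ B' → ∀ y ∈ A', y ∈ B' → x = y)
      (h2 : ∀ x ∈ A', x ∉ B' → ∀ y ∈ B', y ∉ A' → ¬ F'.Adj x y)
      (h3 : (F'.induce (B' : Set X)).Connected),
      c F' ≤ c (F'.induce (A' : Set X)) + c (F'.induce (B' : Set X)) := by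
    intro X _ F' A' B' hA h1 h2 h3
    refine glue_bound F' A' B' ?_ ?_ ?_ h3
    · ext x
      rw [Finset.mem_union]
      exact ⟨fun _ => Finset.mem_univ _, fun _ => hA x⟩
    · rw [Finset.card_le_one]
      intro x hx y hy
      rw [Finset.mem_inter] at hx hy
      exact h1 x hx.1 hx.2 y hy.1 hy.2
    · intro x hx y hy
      rw [Finset.mem_sdiff] at hx hy
      exact h2 x hx.1 hx.2 y hy.1 hy.2
  have h := key ((A ∪ B : Finset W) : Set W) inferInstance
    (F.induce ((A ∪ B : Finset W) : Set W))
    ((univ : Finset ((A ∪ B : Finset W) : Set W)).filter (fun x => x.1 ∈ A))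
    ((univ : Finset ((A ∪ B : Finset W) : Set W)).filter (fun x => x.1 ∈ B))
    (by
      intro x
      have := x.2
      simpa using this)
    (by
      intro x hxA hxB y hyA hyB
      rw [Finset.mem_filter] at hxA hxB hyA hyB
      apply Subtype.ext
      exact Finset.card_le_one.1 h1 x.1 (Finset.mem_inter.2 ⟨hxA.2, hxB.2⟩) y.1
        (Finset.mem_inter.2 ⟨hyA.2, hyB.2⟩))
    (by
      intro x hxA hxB y hyB hyA
      rw [Finset.mem_filter] at hxA hxB hyA hyB
      have h2 := hno x.1 (Finset.mem_sdiff.2 ⟨hxA.2, fun h => hxB ⟨Finset.mem_univ _, h⟩⟩) y.1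
        (Finset.mem_sdiff.2 ⟨hyB.2, fun h => hyA ⟨Finset.mem_univ _, h⟩⟩)
      simpa using h2)
    (eB.connected_iff.2 hB)
  refine h.trans (add_le_add (c_mono _ _ ?_) (c_mono _ _ ?_))
  · exact ⟨eA.toCopy⟩
  · exact ⟨eB.toCopy⟩

/-- Gluing arbitrarily many connected pieces in a tree-like way. -/
theorem pieces_bound {W : Type} [Fintype W] (F : SimpleGraph W) (a : ℝ≥0∞)
    (hF : Pieces F univ a) : c F ≤ a := by
  have h : ∀ S a, Pieces F S a → c (F.induce ((S : Finset W) : Set W)) ≤ a := by
    intro S a hS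
    induction hS with
    | empty => rw [c_empty]
    | glue S B a _ h1 h2 h3 ih =>
      exact (glue_sub F S B h1 h2 h3).trans (add_le_add ih le_rfl)
  refine le_trans (c_mono _ _ ?_) (h univ a hF)
  exact ⟨⟨⟨fun x => ⟨x, by simp⟩, fun {a b} hab => by simpa using hab⟩, fun a b hab => by
    simpa using hab⟩⟩

/-- Blocks of bounded order. -/
theorem blocks_bound {W : Type} [Fintype W] (F : SimpleGraph W) (r : ℕ)
    (hr : 2 ≤ r) (hF : SmallBlocks F r univ) : c F ≤ c (⊤ : SimpleGraph (Fin r)) := by
  have hC : ∀ S, SmallBlocks F r S → Cactus F (fun _ : Unit => (⊤ : SimpleGraph (Fin r))) ∅ S := by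
    intro S hS
    induction hS with
    | empty => exact Cactus.core
    | glue S B _ h1 h2 h3 ih =>
      refine Cactus.glue S B () ih h1 h3 ?_
      obtain ⟨e⟩ : Nonempty (((B : Set W) : Type) ↪ Fin r) := by
        rw [Function.Embedding.nonempty_iff_card_le]
        simpa using h2
      exact ⟨⟨⟨e, fun {a b} hab => by
        rw [SimpleGraph.top_adj]
        exact fun h => hab.ne (e.injective h)⟩, e.injective⟩⟩
  have hne : Nonempty (Fin r) := ⟨⟨0, by omega⟩⟩
  have := cactus_bound F (fun _ : Unit => (⊤ : SimpleGraph (Fin r)))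
    (fun _ => SimpleGraph.connected_top) (fun _ a b => ⟨⟨Equiv.swap a b, by simp⟩, by simp⟩)
    (fun _ => by rw [Fintype.card_fin]; omega) ∅ (hC univ hF)
  rw [c_empty, zero_add] at this
  simpa using this

/-- **Gluing theorems for `c(F)`.**
1. If `F` is obtained from its subgraph induced on `C` by adding, one after another, pieces that
   are (isomorphic to) subgraphs of connected vertex-transitive graphs `H i` (finitely many, at
   least two vertices each), each glued to the rest at one vertex or disjoint from it, then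
   `c(F) ≤ c(F[C]) + ∑ i, c(H i)` (whatever the number of pieces).
2. The same bound for arbitrary connected rooted graphs `(H i, b i)`, if the pieces are glued by
   their roots to vertices of the core `C`.
3. `c(F)` is at most the sum of the numbers `c(F[B])` over the pieces `B`, if `F` is composed of
   connected pieces `B` in a tree-like way (for instance: over the blocks of `F`).
4. If every block of `F` has at most `r` vertices then `c(F) ≤ c(K_r)`, with equality if `F`
   contains `K_r`. -/
theorem result :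
    (∀ {W ι : Type} [Fintype W] [Fintype ι] [Nonempty ι]
      (F : SimpleGraph W) {U : ι → Type} [∀ i, Fintype (U i)] (H : ∀ i, SimpleGraph (U i)),
      (∀ i, (H i).Connected) → (∀ i (a b : U i), ∃ α : H i ≃g H i, α a = b) →
      (∀ i, 1 < Fintype.card (U i)) → ∀ (C : Finset W), Cactus F H C univ →
      c F ≤ c (F.induce (C : Set W)) + ∑ i, c (H i)) ∧
    (∀ {W ι : Type} [Fintype W] [Fintype ι] [Nonempty ι]
      (F : SimpleGraph W) {U : ι → Type} [∀ i, Fintype (U i)] (H : ∀ i, SimpleGraph (U i)),
      (∀ i, (H i).Connected) → ∀ (b : ∀ i, U i) (C : Finset W), Rooted F H b C univ →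
      c F ≤ c (F.induce (C : Set W)) + ∑ i, c (H i)) ∧
    (∀ {W : Type} [Fintype W] (F : SimpleGraph W) (a : ℝ≥0∞),
      Pieces F univ a → c F ≤ a) ∧
    (∀ {W : Type} [Fintype W] (F : SimpleGraph W) (r : ℕ), 2 ≤ r →
      SmallBlocks F r univ → c F ≤ c (⊤ : SimpleGraph (Fin r)) ∧
        ((⊤ : SimpleGraph (Fin r)).IsContained F → c F = c (⊤ : SimpleGraph (Fin r)))) :=
  ⟨fun F _ _ H h1 h2 h3 C h4 => cactus_bound F H h1 h2 h3 C h4,
    fun F _ _ H h1 b C h2 => rooted_bound F H h1 b C h2,
    fun F a h => pieces_bound F a h,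
    fun F r hr h => ⟨blocks_bound F r hr h, fun hK => le_antisymm (blocks_bound F r hr h)
      (c_mono _ _ hK)⟩⟩

end Pool.Agent.Results.MP_349e33_co.Gluing
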